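import Pool.Agent.N375.AV.D
import Pool.Agent.Results.MP_4ffbf9_nt.FactorWindows

/-!
# Largest factors of solutions of `A X + B Y = C Z` in products of small spread, and values of additive functions

Let `F = f_1 ∘ ⋯ ∘ f_k` where each `f_i` is dominated by the largest prime factor: for `m ≥ 1` and the primes `p ≥ C`
larger than all prime powers dividing `m` the value `f (m p)` is at most `C p (1 + log (m p))^C`, and it determines `p`. For
example all additive functions with `f (q^j) ≤ C q^j` at the prime powers, injective at the large primes (the sum of the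
prime factors, with or without multiplicity), the largest prime factor and Kempner's function. Let `α > 0`, `d ≥ 1` and
`0 ≤ κ < 1`. For all `S`, `Q`, `P` there are `R` and `δ > 0` such that for all `m ≤ N` but at most
`K N exp (- c (log N)^(1 / (k + 1)))` there is no solution of `A X + B Y = C Z` with
`gcd (X, Y) ≤ Q rad (gcd (X, Y))`, coefficients `A, B, C ≤ exp (M ^ δ)` without prime factors larger than `P` and `X`, `Y`,
`Z` products of spread at most `S` of degrees between `R` and `M ^ δ`, whose largest factor `M` satisfies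
`|M - α F(m)^d| ≤ F(m)^κ`. More generally `G (F m)` takes the place of `α F(m)^d`, where `G` is any function with steps
bounded below by a positive constant and growth at most `v^d`.

Proof. The number of the largest factors `M ≤ X` of solutions is `O (X ^ η)` for suitable `R`, `δ` by the starting theorem
`HighDegreeCount` of this problem (in the form of the lemma `FactorWindows.count`), so the numbers `v` with a largest factor
within `v^κ` of `G v` are a thin set, and preimages of thin sets under functions dominated by the largest prime factor are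
thin (`N375/AV`): apart from a thin set write `m = k p` with a large prime `p`, larger than all prime powers dividing `k`;
for every `k` the value `f (k p)` determines `p`.
-/

set_option autoImplicit false

namespace Pool.Agent.Results.MP_4ffbf9_nt.AdditiveValues

open Pool.Agent.N375.AV (PD comp win_nat pd_additive pd_sopfr pd_largest pd_kempner)
open Pool.Agent.N733.TG (Expanding expanding_pow)
open Pool.Agent.Results.MP_4ffbf9_nt.FactorWindows (Member Coef Solved)

/-- **Largest factors of solutions keep away from the values of additive functions and their compositions.** Let `d ≥ 1`,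
`0 ≤ κ < 1` and let `S`, `Q`, `P` be natural numbers. There are `R` and `δ > 0` such that: let `F = f_1 ∘ ⋯ ∘ f_k` with
functions `f_i` dominated by the largest prime factor, let `G` have steps `≥ a > 0` and growth at most `v^d`. There are
`c > 0` and `K` such that for all `N ≥ 1`, for all `m ≤ N` but at most `K N exp (- c (log N)^(1 / (k + 1)))`, there is NO
solution of `A X + B Y = C Z` with `gcd (X, Y) ≤ Q rad (gcd (X, Y))`, coefficients `A, B, C ≤ exp (M ^ δ)` without prime
factors larger than `P` and `X`, `Y`, `Z` products of spread at most `S` of degrees between `R` and `M ^ δ`, whose largest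
factor `M` satisfies `|M - G (F m)| ≤ F(m)^κ`. All additive functions with `f (q^j) ≤ C q^j`, injective at the large primes,
the largest prime factor and Kempner's function are examples of such functions `f_i`, and `α v^d` with `α > 0`, `d ≥ 1` is
an example of `G`. -/
theorem result :
    (∀ S Q P : ℕ, ∀ d κ : ℝ, 1 ≤ d → 0 ≤ κ → κ < 1 → ∃ (R : ℕ) (δ : ℝ), 0 < δ ∧
      ∀ fs : List (ℕ → ℕ), (∀ f ∈ fs, PD f) → ∀ G : ℕ → ℝ, Expanding G d → ∃ c K : ℝ, 0 < c ∧ ∀ N : ℕ, 1 ≤ N →
      ({m : ℕ | 1 ≤ m ∧ m ≤ N ∧ ∃ M : ℕ, Solved S Q P R δ M ∧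
        |(M : ℝ) - G (comp fs m)| ≤ (comp fs m : ℝ) ^ κ}.ncard : ℝ) ≤
        K * N * Real.exp (-(c * Real.log N ^ ((1 : ℝ) / (fs.length + 1))))) ∧
    ((∀ f : ℕ → ℕ, (∀ a b : ℕ, Nat.Coprime a b → f (a * b) = f a + f b) →
      (∃ C : ℕ, ∀ q j : ℕ, q.Prime → 1 ≤ j → f (q ^ j) ≤ C * q ^ j) →
      (∃ P : ℕ, ∀ p q : ℕ, p.Prime → q.Prime → P ≤ p → P ≤ q → f p = f q → p = q) → PD f) ∧
      PD (fun n => n.primeFactorsList.sum) ∧ PD (fun n => n.primeFactors.sup id) ∧
      PD (fun n => sInf {k : ℕ | n ∣ k.factorial})) ∧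
    ∀ α d : ℝ, 0 < α → 1 ≤ d → Expanding (fun v => α * (v : ℝ) ^ d) d := by
  refine ⟨fun S Q P d κ hd hκ hκ1 => ?_, ⟨fun f h1 h2 h3 => pd_additive h1 h2 h3, pd_sopfr, pd_largest, pd_kempner⟩,
    fun α d hα hd => expanding_pow hα hd⟩
  obtain ⟨η, hη⟩ : ∃ η, η = (1 - κ) / (2 * d) := ⟨_, rfl⟩
  have hη0 : 0 < η := by
    rw [hη]
    apply div_pos (by linarith) (by linarith)
  have hηd : d * η + κ < 1 := by
    have : d * η = (1 - κ) / 2 := by
      rw [hη]
      field_simp
    rw [this]
    linarith
  obtain ⟨R, δ, hδ, C, hC, h⟩ := FactorWindows.count S Q P η hη0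
  refine ⟨R, δ, hδ, fun fs hfs G hG => ?_⟩
  classical
  obtain ⟨c, K, hc, hK⟩ := win_nat {M : ℕ | Solved S Q P R δ M} fs hfs hG (s := η) (κ := κ) hη0.le hκ hηd
    (fun ε hε => by
      refine ⟨C, fun X hX => ?_⟩
      have hX1 : (1 : ℝ) ≤ X := by exact_mod_cast hX
      refine le_trans (le_of_eq ?_) ((h X hX).trans ?_)
      · congr!
      · apply mul_le_mul_of_nonneg_left _ hC
        apply Real.rpow_le_rpow_of_exponent_le hX1
        linarith)
  refine ⟨c, K, hc, fun N hN => le_trans ?_ (hK N hN)⟩
  have hfin : {m : ℕ | 1 ≤ m ∧ m ≤ N ∧ ∃ n : ℕ, (n = 0 ∨ n ∈ {M : ℕ | Solved S Q P R δ M}) ∧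
      |(n : ℝ) - G (comp fs m)| ≤ (comp fs m : ℝ) ^ κ}.Finite := by
    apply (Set.finite_Icc 1 N).subset
    intro m hm
    exact ⟨hm.1, hm.2.1⟩
  have h2 : {m : ℕ | 1 ≤ m ∧ m ≤ N ∧ ∃ M : ℕ, Solved S Q P R δ M ∧
      |(M : ℝ) - G (comp fs m)| ≤ (comp fs m : ℝ) ^ κ} ⊆
      {m : ℕ | 1 ≤ m ∧ m ≤ N ∧ ∃ n : ℕ, (n = 0 ∨ n ∈ {M : ℕ | Solved S Q P R δ M}) ∧
      |(n : ℝ) - G (comp fs m)| ≤ (comp fs m : ℝ) ^ κ} := by
    rintro m ⟨h2, h3, n, h5, h6⟩
    exact ⟨h2, h3, n, Or.inr h5, h6⟩
  exact_mod_cast Set.ncard_le_ncard h2 hfin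

end Pool.Agent.Results.MP_4ffbf9_nt.AdditiveValues
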