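import Pool.Agent.N251.LF.Win
import Pool.Agent.Results.MP_4ffbf9_nt.FactorWindows

/-!
# Largest factors of solutions of `A X + B Y = C Z` in products of small spread, generic polynomials and linear forms

Let `v_i`, `i` in a countable set, be vectors in `ℝ^k`, `O(X^(τ + ε))` of them of norm at most `X` for every `ε > 0`: for
instance `(1, n, …, n^d)` with `τ = 1 / d`, or `(b_1^(n_1), …, b_k^(n_k))`, `b_j > 1`, for all `n_1, …, n_k`, with `τ = 0`, or
`(n_1^(a_1), …, n_k^(a_k))` with `τ = ∑ 1 / a_j`. Let `θ < 1`. There is a set `E` of Hausdorff dimension at most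
`k - 1 + τ / (1 - θ)` such that for all `α` in `ℝ^k` outside `E` and all `S`, `Q`, `P` there are `R` and `δ > 0` such that for
every `c`, for all but finitely many `i`, there is no solution of `A X + B Y = C Z` with
`gcd (X, Y) ≤ Q rad (gcd (X, Y))`, coefficients `A, B, C ≤ exp (M ^ δ)` without prime factors larger than `P` and `X`, `Y`,
`Z` products of spread at most `S` of degrees between `R` and `M ^ δ`, whose largest factor `M` satisfies
`|M - α · v_i| ≤ c ‖v_i‖^θ`. The bound is less than `k` if `τ + θ < 1`: so this holds for the `M` near `f(n)`, `n` large, for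
almost all real polynomials `f` of degree `d ≥ 2`, and near the numbers `α_1 b_1^(n_1) + … + α_k b_k^(n_k)` for almost all `α`.
The case `k = 1` is the starting theorem `FactorWindows`, whose count (from the starting theorem `HighDegreeCount`) is used.
-/

set_option autoImplicit false

namespace Pool.Agent.Results.MP_4ffbf9_nt.GenericLinearForms

open Filter Topology
open Pool.Agent.N251.LF (Fam Sq linear_win_nat)
open Pool.Agent.Results.MP_4ffbf9_nt.FactorWindows (Member Coef Solved)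

lemma one_family (S Q P : ℕ) {k : ℕ} {ι : Type} {v : ι → Fin k → ℝ} {τ θ : ℝ} (hv : Fam v τ) (hτ : 0 ≤ τ)
    (hθ1 : θ < 1) :
    ∃ E : Set (Fin k → ℝ), dimH E ≤ ENNReal.ofReal ((k : ℝ) - 1 + τ / (1 - θ)) ∧ ∀ α, α ∉ E →
      ∃ (R : ℕ) (δ : ℝ), 0 < δ ∧ ∀ c : ℝ,
        {i | ∃ M : ℕ, Solved S Q P R δ M ∧ |(M : ℝ) - ∑ j, α j * v i j| ≤ c * ‖v i‖ ^ θ}.Finite := by
  classical
  have hall : ∀ m : ℕ, ∃ (R : ℕ) (δ : ℝ) (E : Set (Fin k → ℝ)), 0 < δ ∧
      dimH E ≤ ENNReal.ofReal ((k : ℝ) - 1 + (1 / ((m : ℝ) + 1) + τ) / (1 - θ)) ∧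
      ∀ α, α ∉ E → ∀ c : ℝ, {i | ∃ M : ℕ, (M = 0 ∨ M ∈ {M : ℕ | Solved S Q P R δ M}) ∧
        |(M : ℝ) - ∑ j, α j * v i j| ≤ c * ‖v i‖ ^ θ}.Finite := by
    intro m
    obtain ⟨R, δ, hδ, C, hC, h⟩ := FactorWindows.count S Q P (1 / ((m : ℝ) + 1)) (by positivity)
    obtain ⟨E, h3, h4⟩ := linear_win_nat {M : ℕ | Solved S Q P R δ M} v (s := 1 / ((m : ℝ) + 1)) (by positivity) hτ hθ1
      hv (fun ε hε => by
        refine ⟨C, fun X hX => le_trans (le_of_eq ?_) ((h X hX).trans ?_)⟩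
        · congr!
        · have hX1 : (1 : ℝ) ≤ X := by exact_mod_cast hX
          apply mul_le_mul_of_nonneg_left _ hC
          apply Real.rpow_le_rpow_of_exponent_le hX1
          linarith)
    exact ⟨R, δ, E, hδ, h3, h4⟩
  choose R δ G hδ hG1 hG2 using hall
  have hlim : Tendsto (fun m : ℕ => ENNReal.ofReal ((k : ℝ) - 1 + (1 / ((m : ℝ) + 1) + τ) / (1 - θ))) atTop
      (𝓝 (ENNReal.ofReal ((k : ℝ) - 1 + (0 + τ) / (1 - θ)))) :=
    ENNReal.tendsto_ofReal (((tendsto_one_div_add_atTop_nhds_zero_nat.add_const τ).div_const (1 - θ)).const_add _)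
  rw [zero_add] at hlim
  refine ⟨⋂ m, G m, ge_of_tendsto' hlim fun m => (dimH_mono (Set.iInter_subset _ m)).trans (hG1 m),
    fun α hαE => ?_⟩
  rw [Set.mem_iInter] at hαE
  push Not at hαE
  obtain ⟨m, hm⟩ := hαE
  refine ⟨R m, δ m, hδ m, fun c => (hG2 m α hm c).subset ?_⟩
  rintro i ⟨M, hM, h⟩
  exact ⟨M, Or.inr hM, h⟩

/-- **Theorem.** Let `v` be a family of vectors in `ℝ^k` of exponent `τ ≥ 0` and `θ < 1`. There is a set `E` of Hausdorff
dimension at most `k - 1 + τ / (1 - θ)` such that for all `α` in `ℝ^k` outside `E` and all `S`, `Q`, `P` there are `R` and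
`δ > 0` such that for every `c`, for all but finitely many `i`, there is no solution of `A X + B Y = C Z` with
`gcd (X, Y) ≤ Q rad (gcd (X, Y))`, coefficients `A, B, C ≤ exp (M ^ δ)` without prime factors larger than `P` and `X`, `Y`,
`Z` products of spread at most `S` of degrees between `R` and `M ^ δ`, whose largest factor `M` satisfies
`|M - ∑ α_j v_(i,j)| ≤ c ‖v_i‖^θ`. The vectors `(1, n, …, n^d)` are a family of exponent `1 / d`, the
`(b_1^(n_1), …, b_k^(n_k))` with `b_j > 1` one of exponent `0`, the `(n_1^(a_1), …, n_k^(a_k))` with `a_j > 0` one of exponent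
`∑ 1 / a_j`, and the `(u_1(n_1), …, u_k(n_k))` one of exponent `∑ τ_j`, if the sequences `u_j` have exponents `τ_j`. -/
theorem result :
    (∀ (k : ℕ) (ι : Type) (v : ι → Fin k → ℝ) (τ θ : ℝ), Fam v τ → 0 ≤ τ → θ < 1 →
      ∃ E : Set (Fin k → ℝ), dimH E ≤ ENNReal.ofReal ((k : ℝ) - 1 + τ / (1 - θ)) ∧ ∀ α, α ∉ E → ∀ S Q P : ℕ,
        ∃ (R : ℕ) (δ : ℝ), 0 < δ ∧ ∀ c : ℝ,
          {i | ∃ M : ℕ, Solved S Q P R δ M ∧ |(M : ℝ) - ∑ j, α j * v i j| ≤ c * ‖v i‖ ^ θ}.Finite) ∧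
    (∀ d : ℕ, 1 ≤ d → Fam (fun (n : ℕ) (j : Fin (d + 1)) => (n : ℝ) ^ (j : ℕ)) (1 / d)) ∧
    (∀ (k : ℕ) (b : Fin k → ℝ), (∀ j, 1 < b j) → Fam (fun (n : Fin k → ℕ) (j : Fin k) => b j ^ n j) 0) ∧
    (∀ (k : ℕ) (a : Fin k → ℝ), (∀ j, 0 < a j) →
      Fam (fun (n : Fin k → ℕ) (j : Fin k) => (n j : ℝ) ^ a j) (∑ j, 1 / a j)) ∧
    ∀ (k : ℕ) (u : Fin k → ℕ → ℝ) (τ : Fin k → ℝ), (∀ j, Sq (u j) (τ j)) →
      Fam (fun (n : Fin k → ℕ) (j : Fin k) => u j (n j)) (∑ j, τ j) := by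
  refine ⟨fun k ι v τ θ hv hτ hθ1 => ?_, Pool.Agent.N251.LF.examples⟩
  have hall : ∀ c : ℕ × ℕ × ℕ, _ := fun c => one_family c.1 c.2.1 c.2.2 hv hτ hθ1
  choose E hE1 hE2 using hall
  refine ⟨⋃ c, E c, ?_, fun α hαE S Q P => ?_⟩
  · rw [dimH_iUnion]
    exact iSup_le hE1
  · rw [Set.mem_iUnion] at hαE
    push Not at hαE
    exact hE2 (S, Q, P) α (hαE (S, Q, P))

end Pool.Agent.Results.MP_4ffbf9_nt.GenericLinearForms
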