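import Pool.Agent.N733.TG.K
import Pool.Agent.Results.MP_4ffbf9_nt.FactorWindows

/-!
# Largest factors of solutions of `A X + B Y = C Z` in products of small spread, and multiplicative functions

Let `f` be a positive multiplicative function of at most polynomial growth such that `f p ≤ M p` for the large primes `p`,
with different values at different large primes; for example Euler's function or the sum of the divisors. Let `α > 0`,
`d ≥ 1` and `0 ≤ κ < 1`. For all `S`, `Q`, `P` there are `R` and `δ > 0` such that for all `m ≤ N` but `N / (log N)^U` there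
is no solution of `A X + B Y = C Z` with `gcd (X, Y) ≤ Q rad (gcd (X, Y))`, coefficients `A, B, C ≤ exp (M ^ δ)` without
prime factors larger than `P` and `X`, `Y`, `Z` products of spread at most `S` of degrees between `R` and `M ^ δ`, whose
largest factor `M` satisfies `|M - α f(m)^d| ≤ f(m)^κ`. More generally `G (f m)` takes the place of `α f(m)^d`, where `G` is
any function with steps bounded below by a positive constant and growth at most `v^d`. The values of `f` are in general
taken with very large multiplicities.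

Proof. Write `m = k w` where `k` is composed of the primes `≤ z = N^(1 / J)`, `J` about `log log N`. For most `m` one has
`k ≤ N^η`, and `w` is a product of at most `J` different primes. So `f(w)` is taken at most `(1 + τ)^J` times, `τ` its number of
divisors, which is at most `N^o(1)` on average, even in mean square: and the exceptional set has only `N^(1 - δ)` elements. The
number of the largest factors `M ≤ X` of solutions is bounded by the starting theorem `HighDegreeCount` of this problem (in the
form of the lemma `FactorWindows.count`).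
-/

set_option autoImplicit false

namespace Pool.Agent.Results.MP_4ffbf9_nt.MultiplicativeValues

open Pool.Agent.N733.TG (LM Expanding lm_totient lm_sigma keep_win_nat expanding_pow)
open Pool.Agent.Results.MP_4ffbf9_nt.FactorWindows (Member Coef Solved)

/-- **Largest factors of solutions keep away from the values of multiplicative functions.** Let `d ≥ 1`, `0 ≤ κ < 1` and
let `S`, `Q`, `P` be natural numbers. There are `R` and `δ > 0` such that: let `f` be multiplicative and positive, of at
most polynomial growth, with `f p ≤ M p` at the large primes, and injective there; let `G` have steps `≥ a > 0` and growth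
at most `v^d`. For every `U` and all large `N`, for all `m ≤ N` but `N / (log N)^U`, there is NO solution of
`A X + B Y = C Z` with `gcd (X, Y) ≤ Q rad (gcd (X, Y))`, coefficients `A, B, C ≤ exp (M ^ δ)` without prime factors larger
than `P` and `X`, `Y`, `Z` products of spread at most `S` of degrees between `R` and `M ^ δ`, whose largest factor `M`
satisfies `|M - G (f m)| ≤ f(m)^κ`. Euler's function and the sum of the divisors are examples of such functions `f`, and
`α v^d` with `α > 0`, `d ≥ 1` is an example of `G`. -/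
theorem result :
    (∀ S Q P : ℕ, ∀ d κ : ℝ, 1 ≤ d → 0 ≤ κ → κ < 1 → ∃ (R : ℕ) (δ : ℝ), 0 < δ ∧
      ∀ f : ℕ → ℕ, LM f → ∀ G : ℕ → ℝ, Expanding G d → ∀ U : ℕ, ∃ N₀ : ℕ, ∀ N : ℕ, N₀ ≤ N →
      ({m : ℕ | 1 ≤ m ∧ m ≤ N ∧ ∃ M : ℕ, Solved S Q P R δ M ∧ |(M : ℝ) - G (f m)| ≤ (f m : ℝ) ^ κ}.ncard : ℝ) ≤
        N / Real.log N ^ U) ∧
    (LM Nat.totient ∧ LM (fun m => ∑ d ∈ m.divisors, d)) ∧
    ∀ α d : ℝ, 0 < α → 1 ≤ d → Expanding (fun v => α * (v : ℝ) ^ d) d := by
  refine ⟨fun S Q P d κ hd hκ hκ1 => ?_, ⟨lm_totient, lm_sigma⟩, fun α d hα hd => expanding_pow hα hd⟩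
  obtain ⟨η, hη⟩ : ∃ η, η = (1 - κ) / (2 * d) := ⟨_, rfl⟩
  have hη0 : 0 < η := by
    rw [hη]
    apply div_pos (by linarith) (by linarith)
  have hηd : d * η + κ < 1 := by
    have : d * η = (1 - κ) / 2 := by
      rw [hη]
      field_simp
    rw [this]
    linarith
  obtain ⟨R, δ, hδ, C, hC, h⟩ := FactorWindows.count S Q P η hη0
  refine ⟨R, δ, hδ, fun f hf G hG U => ?_⟩
  classical
  obtain ⟨N₀, hN₀⟩ := keep_win_nat {M : ℕ | Solved S Q P R δ M} hf hG (s := η) (κ := κ) hη0.le hκ hηd
    (fun ε hε => by
      refine ⟨C, fun X hX => ?_⟩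
      have hX1 : (1 : ℝ) ≤ X := by exact_mod_cast hX
      refine le_trans (le_of_eq ?_) ((h X hX).trans ?_)
      · congr!
      · apply mul_le_mul_of_nonneg_left _ hC
        apply Real.rpow_le_rpow_of_exponent_le hX1
        linarith) U
  refine ⟨N₀, fun N hN => le_trans ?_ (hN₀ N hN)⟩
  have hfin : {m : ℕ | 1 ≤ m ∧ m ≤ N ∧ ∃ n : ℕ, (n = 0 ∨ n ∈ {M : ℕ | Solved S Q P R δ M}) ∧
      |(n : ℝ) - G (f m)| ≤ (f m : ℝ) ^ κ}.Finite := by
    apply (Set.finite_Icc 1 N).subset
    intro m hm
    exact ⟨hm.1, hm.2.1⟩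
  have h2 : {m : ℕ | 1 ≤ m ∧ m ≤ N ∧ ∃ M : ℕ, Solved S Q P R δ M ∧ |(M : ℝ) - G (f m)| ≤ (f m : ℝ) ^ κ} ⊆
      {m : ℕ | 1 ≤ m ∧ m ≤ N ∧ ∃ n : ℕ, (n = 0 ∨ n ∈ {M : ℕ | Solved S Q P R δ M}) ∧
      |(n : ℝ) - G (f m)| ≤ (f m : ℝ) ^ κ} := by
    rintro m ⟨h2, h3, n, h5, h6⟩
    exact ⟨h2, h3, n, Or.inr h5, h6⟩
  exact_mod_cast Set.ncard_le_ncard h2 hfin

end Pool.Agent.Results.MP_4ffbf9_nt.MultiplicativeValues
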