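import Pool.Agent.N671.DA.Win
import Pool.Agent.Results.MP_4ffbf9_nt.FactorWindows

/-!
# Largest factors of solutions of `A X + B Y = C Z` in products of small spread, and the denominators of good approximations

Let `α_1, …, α_m` be real numbers. We consider the natural numbers `q` with `‖q α_j - β_j‖ ≤ c q^(-τ)` for all `j`, `‖x‖` the
distance to the nearest integer; for `β = 0`, `c = 1`, `τ = 1 / m` these include the denominators of all best simultaneous
approximations (the denominators of the convergents for `m = 1`). They form a very sparse sequence, with gaps growing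
exponentially for almost all `α` if `τ = 1 / m`. Let `G` be a function with steps bounded below by a positive constant and
growth at most `v^d`, for example `α v^d`. We show: for every `η > 0` there are `R` and `δ > 0`, depending on `η` and on
`S`, `Q`, `P`, such that for all `α` in `ℝ^m` outside a set of Hausdorff dimension at most `(m + d η + κ) / (1 + τ)`, all `c`
and all `S`, `Q`, `P`, for all but finitely many such `q` there is NO solution of `A X + B Y = C Z` with
`gcd (X, Y) ≤ Q rad (gcd (X, Y))`, coefficients `A, B, C ≤ exp (M ^ δ)` without prime factors larger than `P` and `X`, `Y`,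
`Z` products of spread at most `S` of degrees between `R` and `M ^ δ`, whose largest factor `M` satisfies
`|M - G q| ≤ q^κ`. For `τ = 1 / m` and `κ < 1` the bound is less than `m` if `η` is small; and so the statement holds for
almost all `α`.

Proof. The number of the largest factors `M ≤ X` of solutions is `O(X^η)` by the starting theorem `HighDegreeCount` of this
problem (in the form of the lemma `FactorWindows.count`). So the `q` such that some `M` is near `G q` form a set with
`O(X^(d η + κ))` elements up to `X`; and the `α` with `‖q α_j - β_j‖ ≤ c q^(-τ)` for all `j` and infinitely many `q` of such a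
set are covered by few small cubes.
-/

set_option autoImplicit false

namespace Pool.Agent.Results.MP_4ffbf9_nt.SimultaneousApproximations

open Pool.Agent.N671.DA (Solves Expanding expanding_pow approx_win_nat)
open Pool.Agent.Results.MP_4ffbf9_nt.FactorWindows (Member Coef Solved)

/-- **Largest factors of solutions keep away from the denominators of good approximations.** For every `η > 0` there are
functions `R` and `δ > 0` of `S`, `Q`, `P` such that: let `G` have steps `≥ a > 0` and growth at most `v^d`, let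
`0 ≤ κ ≤ 1`, `β` in `ℝ^m` and `τ > 0`. For all `α` in `ℝ^m` outside a set of Hausdorff dimension at most
`(m + d η + κ) / (1 + τ)`, all `c` and all `S`, `Q`, `P`, for all large `q` with `‖q α_j - β_j‖ ≤ c q^(-τ)` for all `j`, there
is NO solution of `A X + B Y = C Z` with `gcd (X, Y) ≤ Q rad (gcd (X, Y))`, coefficients `A, B, C ≤ exp (M ^ δ)` without
prime factors larger than `P` and `X`, `Y`, `Z` products of spread at most `S` of degrees between `R` and `M ^ δ`, whose
largest factor `M` satisfies `|M - G q| ≤ q^κ`. The functions `α v^d` with `α > 0`, `d ≥ 1` are examples of `G`. -/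
theorem result :
    (∀ η : ℝ, 0 < η → ∃ (R : ℕ → ℕ → ℕ → ℕ) (δ : ℕ → ℕ → ℕ → ℝ), (∀ S Q P : ℕ, 0 < δ S Q P) ∧
      ∀ (G : ℕ → ℝ) (d : ℝ), Expanding G d → ∀ κ : ℝ, 0 ≤ κ → κ ≤ 1 →
      ∀ (m : ℕ) (β : Fin m → ℝ) (τ : ℝ), 0 < τ →
      ∃ E : Set (Fin m → ℝ), dimH E ≤ ENNReal.ofReal ((m + (d * η + κ)) / (1 + τ)) ∧
        ∀ α, α ∉ E → ∀ (c : ℝ) (S Q P : ℕ), ∃ q₀ : ℕ, ∀ q : ℕ, q₀ ≤ q → Solves α β q (c * (q : ℝ) ^ (-τ)) →
          ∀ M : ℕ, Solved S Q P (R S Q P) (δ S Q P) M → ¬ |(M : ℝ) - G q| ≤ (q : ℝ) ^ κ) ∧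
    ∀ α d : ℝ, 0 < α → 1 ≤ d → Expanding (fun v => α * (v : ℝ) ^ d) d := by
  refine ⟨fun η hη => ?_, fun α d hα hd => expanding_pow hα hd⟩
  choose R δ hδ C hC h using fun S Q P : ℕ => FactorWindows.count S Q P η hη
  refine ⟨R, δ, hδ, fun G d hG κ hκ hκ1 m β τ hτ => ?_⟩
  classical
  have key : ∀ t : ℕ × ℕ × ℕ, ∃ E : Set (Fin m → ℝ), dimH E ≤ ENNReal.ofReal ((m + (d * η + κ)) / (1 + τ)) ∧
      ∀ α, α ∉ E → ∀ c : ℝ, ∃ q₀ : ℕ, ∀ q : ℕ, q₀ ≤ q → Solves α β q (c * (q : ℝ) ^ (-τ)) →
        ∀ n : ℕ, (n = 0 ∨ n ∈ {M : ℕ | Solved t.1 t.2.1 t.2.2 (R t.1 t.2.1 t.2.2) (δ t.1 t.2.1 t.2.2) M}) →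
          ¬ |(n : ℝ) - G q| ≤ (q : ℝ) ^ κ := fun t =>
    approx_win_nat {M : ℕ | Solved t.1 t.2.1 t.2.2 (R t.1 t.2.1 t.2.2) (δ t.1 t.2.1 t.2.2) M} hG (s := η) (κ := κ)
      hη.le hκ hκ1 (fun ε hε => by
        refine ⟨C t.1 t.2.1 t.2.2, fun X hX => ?_⟩
        have hX1 : (1 : ℝ) ≤ X := by exact_mod_cast hX
        refine le_trans (le_of_eq ?_) ((h t.1 t.2.1 t.2.2 X hX).trans ?_)
        · congr!
        · apply mul_le_mul_of_nonneg_left _ (hC t.1 t.2.1 t.2.2)
          apply Real.rpow_le_rpow_of_exponent_le hX1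
          linarith) β hτ
  choose E hE hE2 using key
  refine ⟨⋃ t, E t, ?_, fun α hα c S Q P => ?_⟩
  · rw [dimH_iUnion]
    exact iSup_le hE
  · have hα' : α ∉ E (S, Q, P) := fun hmem => hα (Set.mem_iUnion.2 ⟨_, hmem⟩)
    obtain ⟨q₀, hq₀⟩ := hE2 (S, Q, P) α hα' c
    exact ⟨q₀, fun q hq h1 M hM => hq₀ q hq h1 M (Or.inr hM)⟩

end Pool.Agent.Results.MP_4ffbf9_nt.SimultaneousApproximations
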